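import Pool.Agent.J4.H42.FlB
import Pool.Agent.Y335.FL.Main

/-!
# Chains of cycles and cuts in cubic vertex-transitive graphs
-/

set_option autoImplicit false
set_option linter.unusedSectionVars false
set_option linter.unusedDecidableInType false
set_option linter.unusedFintypeInType false

namespace Pool.Agent.J4.H30.VT

open Finset Pool.Agent.TH676.Z Pool.Agent.Y335.FL

variable {V : Type} [Fintype V] [DecidableEq V] (G : SimpleGraph V)

/-- `F` is the union of a chain of circuits with at most eleven edges outside the earlier ones. -/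
inductive Ch : Finset (Sym2 V) → Prop
  | nil : Ch ∅
  | step (F : Finset (Sym2 V)) (w : V) (c : G.Walk w w) : Ch F → c.IsCycle →
      (c.edges.toFinset \ F).card ≤ 11 → Ch (F ∪ c.edges.toFinset)

variable {G}

theorem Ch.sub {F : Finset (Sym2 V)} (h : Ch G F) : ∀ e ∈ F, e ∈ G.edgeSet := by
  induction h with
  | nil => intro e he; simp at he
  | step F w c _ hc h11 ih =>
    intro e he
    rw [mem_union, List.mem_toFinset] at he
    rcases he with he | he
    · exact ih e he
    · exact c.edges_subset_edgeSet he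

theorem Ch.union {F F' : Finset (Sym2 V)} (h : Ch G F) (h' : Ch G F') : Ch G (F ∪ F') := by
  induction h' with
  | nil => rwa [union_empty]
  | step F' w c _ hc h11 ih =>
    rw [← union_assoc]
    refine Ch.step _ w c ih hc (le_trans (card_le_card ?_) h11)
    exact sdiff_subset_sdiff (Subset.refl _) subset_union_right

theorem Ch.image {F : Finset (Sym2 V)} (φ : G ≃g G) (h : Ch G F) :
    Ch G (F.image (Sym2.map φ)) := by
  induction h with
  | nil => rw [image_empty]; exact Ch.nil
  | step F w c _ hc h11 ih =>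
    have hinj : Function.Injective (Sym2.map φ) := Sym2.map.injective φ.injective
    have e1 : (c.map φ.toHom).edges.toFinset = c.edges.toFinset.image (Sym2.map φ) := by
      rw [SimpleGraph.Walk.edges_map]
      ext e
      simp
    rw [image_union, ← e1]
    refine Ch.step _ _ (c.map φ.toHom) ih (hc.map φ.injective) ?_
    rw [e1, ← image_sdiff _ _ hinj]
    exact card_image_le.trans h11

/-- every edge of the chain is on a circuit -/
theorem Ch.cycle {F : Finset (Sym2 V)} (h : Ch G F) : ∀ e ∈ F, ∃ (w : V) (c : G.Walk w w),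
    c.IsCycle ∧ e ∈ c.edges := by
  induction h with
  | nil => intro e he; simp at he
  | step F w c _ hc h11 ih =>
    intro e he
    rw [mem_union, List.mem_toFinset] at he
    rcases he with he | he
    · exact ih e he
    · exact ⟨w, c, hc, he⟩

/-! ## the largest chain -/

theorem exists_max (G : SimpleGraph V) : ∃ F : Finset (Sym2 V), Ch G F ∧
    (∀ F', Ch G F' → F' ⊆ F) := by
  classical
  obtain ⟨F, hF, hmax⟩ := (univ.filter (fun F : Finset (Sym2 V) => Ch G F)).exists_max_image
    card ⟨∅, by simp only [mem_filter, mem_univ, true_and]; exact Ch.nil⟩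
  have hF1 := (mem_filter.1 hF).2
  refine ⟨F, hF1, fun F' h' => ?_⟩
  have h1 := hmax (F ∪ F') (by simp only [mem_filter, mem_univ, true_and]; exact hF1.union h')
  have h2 : F = F ∪ F' := eq_of_subset_of_card_le subset_union_left h1
  rw [h2]
  exact subset_union_right

/-! ## flows of walks -/

/-- the flow of a walk -/
def zw : {a b : V} → G.Walk a b → V → V → ZMod 5
  | _, _, SimpleGraph.Walk.nil => fun _ _ => 0
  | a, _, @SimpleGraph.Walk.cons _ _ _ c _ _ p => fun u v =>
      (if u = a ∧ v = c then 1 else 0) - (if u = c ∧ v = a then 1 else 0) + zw p u v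

theorem zw_anti {a b : V} (p : G.Walk a b) (u v : V) : zw p v u = - zw p u v := by
  induction p with
  | nil => simp [zw]
  | @cons a c b h p ih =>
    simp only [zw, ih]
    have e1 : (v = a ∧ u = c) ↔ (u = c ∧ v = a) := and_comm
    have e2 : (v = c ∧ u = a) ↔ (u = a ∧ v = c) := and_comm
    simp only [e1, e2]
    ring

theorem zw_sum {a b : V} (p : G.Walk a b) (u : V) :
    ∑ v, zw p u v = (if u = a then 1 else 0) - (if u = b then 1 else 0) := by
  induction p with
  | nil => simp [zw]
  | @cons a c b h p ih =>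
    simp only [zw, sum_add_distrib, sum_sub_distrib, ih]
    have e1 : ∑ v, (if u = a ∧ v = c then (1 : ZMod 5) else 0) = if u = a then 1 else 0 := by
      by_cases hu : u = a <;> simp [hu]
    have e2 : ∑ v, (if u = c ∧ v = a then (1 : ZMod 5) else 0) = if u = c then 1 else 0 := by
      by_cases hu : u = c <;> simp [hu]
    rw [e1, e2]
    ring

theorem zw_zero {a b : V} (p : G.Walk a b) (u v : V) (h : s(u, v) ∉ p.edges) : zw p u v = 0 := by
  induction p with
  | nil => simp [zw]
  | @cons a c b hac p ih =>
    rw [SimpleGraph.Walk.edges_cons, List.mem_cons, not_or] at h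
    obtain ⟨h1, h2⟩ := h
    have e1 : ¬ (u = a ∧ v = c) := by rintro ⟨rfl, rfl⟩; exact h1 rfl
    have e2 : ¬ (u = c ∧ v = a) := by rintro ⟨rfl, rfl⟩; exact h1 Sym2.eq_swap
    simp only [zw, ih h2, if_neg e1, if_neg e2]
    ring

theorem zw_ne {a b : V} (p : G.Walk a b) (hp : p.edges.Nodup) (u v : V) (h : s(u, v) ∈ p.edges) :
    zw p u v ≠ 0 := by
  induction p with
  | nil => simp at h
  | @cons a c b hac p ih =>
    rw [SimpleGraph.Walk.edges_cons, List.nodup_cons] at hp
    obtain ⟨h1, h2⟩ := hp
    rw [SimpleGraph.Walk.edges_cons, List.mem_cons] at h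
    have hne : a ≠ c := G.ne_of_adj hac
    rcases h with h | h
    · have h3 : zw p u v = 0 := by
        apply zw_zero
        rw [h]
        exact h1
      rw [Sym2.eq_iff] at h
      rcases h with ⟨rfl, rfl⟩ | ⟨rfl, rfl⟩
      · have e2 : ¬ (u = v ∧ v = u) := fun h => hne h.1
        simp only [zw, h3, if_neg e2, and_self, if_true]
        decide
      · have e2 : ¬ (u = v ∧ v = u) := fun h => hne h.1.symm
        simp only [zw, h3, if_neg e2, and_self, if_true]
        decide
    · have e1 : ¬ (u = a ∧ v = c) := by rintro ⟨rfl, rfl⟩; exact h1 h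
      have e2 : ¬ (u = c ∧ v = a) := by
        rintro ⟨rfl, rfl⟩
        rw [Sym2.eq_swap] at h
        exact h1 h
      simp only [zw, if_neg e1, if_neg e2, sub_self, zero_add]
      exact ih h2 h

/-! ## the graph as a multigraph -/

variable [DecidableRel G.Adj]

/-- the edges of `F` -/
def Fe (G : SimpleGraph V) [DecidableRel G.Adj] (F : Finset (Sym2 V)) : Finset G.edgeSet :=
  univ.filter (fun e => (e : Sym2 V) ∈ F)

theorem bd_eq (src dst : G.edgeSet → V) (hor : ∀ e, s(src e, dst e) = (e : Sym2 V))
    (z : V → V → ZMod 5) (hz : ∀ u v, z v u = - z u v) (hz0 : ∀ u v, ¬ G.Adj u v → z u v = 0)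
    (v : V) : bd src dst (fun e => z (src e) (dst e)) v = ∑ u, z v u := by
  have h1 : ∀ e : G.edgeSet, (if src e = v then z (src e) (dst e) else 0) -
      (if dst e = v then z (src e) (dst e) else 0) =
      ∑ u, if (e : Sym2 V) = s(v, u) then z v u else 0 := by
    intro e
    have hne : src e ≠ dst e := by
      intro h
      have h2 : G.Adj (src e) (dst e) := by
        rw [← SimpleGraph.mem_edgeSet, hor e]
        exact e.2
      exact G.ne_of_adj h2 h
    have h3 : ∀ u, ((e : Sym2 V) = s(v, u)) ↔ (src e = v ∧ dst e = u) ∨ (dst e = v ∧ src e = u) := by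
      intro u
      rw [← hor e, Sym2.eq_iff]
      tauto
    simp only [h3]
    by_cases ha : src e = v
    · have hb : dst e ≠ v := fun h => hne (ha.trans h.symm)
      simp [ha, hb]
    · by_cases hb : dst e = v
      · simp only [ha, hb, if_false, false_and, true_and, false_or, if_true, zero_sub,
          Finset.sum_ite_eq, mem_univ]
        rw [← hz]
      · simp [ha, hb]
  unfold bd
  rw [sum_congr rfl fun e _ => h1 e, sum_comm]
  refine sum_congr rfl fun u _ => ?_
  by_cases huv : G.Adj v u
  · rw [sum_eq_single (⟨s(v, u), huv⟩ : G.edgeSet)]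
    · simp
    · intro e _ he
      rw [if_neg]
      intro h
      exact he (Subtype.ext h)
    · intro h
      exact absurd (mem_univ _) h
  · rw [hz0 v u huv]
    simp

theorem walk_flow (src dst : G.edgeSet → V) (hor : ∀ e, s(src e, dst e) = (e : Sym2 V)) {w : V}
    (c : G.Walk w w) (hc : c.IsCycle) : ∃ z : G.edgeSet → ZMod 5, (∀ v, bd src dst z v = 0) ∧
      ∀ e, z e ≠ 0 ↔ (e : Sym2 V) ∈ c.edges := by
  refine ⟨fun e => zw c (src e) (dst e), fun v => ?_, fun e => ⟨fun h => ?_, fun h => ?_⟩⟩
  · rw [bd_eq src dst hor (zw c) (fun u v => zw_anti c u v), zw_sum, sub_self]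
    intro u v huv
    apply zw_zero
    intro h
    exact huv (c.edges_subset_edgeSet h)
  · by_contra hn
    apply h
    apply zw_zero
    rw [hor e]
    exact hn
  · apply zw_ne c hc.edges_nodup
    rw [hor e]
    exact h

theorem lift (src dst : G.edgeSet → V) (hor : ∀ e, s(src e, dst e) = (e : Sym2 V))
    {F : Finset (Sym2 V)} (hF : Ch G F) : FlowOn src dst ∅ (Fe G F) → FlowOn src dst ∅ ∅ := by
  induction hF with
  | nil =>
    intro h
    have : Fe G (∅ : Finset (Sym2 V)) = ∅ := by
      unfold Fe
      simp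
    rwa [this] at h
  | step F w c _ hc h11 ih =>
    intro h
    apply ih
    obtain ⟨z, hz1, hz2⟩ := walk_flow src dst hor c hc
    refine trail_all V G.edgeSet src dst (Fe G F) (Fe G c.edges.toFinset \ Fe G F) z hz1 ?_ ?_ ?_ ?_
    · intro e he
      rw [hz2]
      rw [Finset.mem_sdiff] at he
      have := (mem_filter.1 he.1).2
      rwa [List.mem_toFinset] at this
    · intro e he1 he2
      by_contra hn
      rw [← ne_eq, hz2] at hn
      apply he2
      rw [Finset.mem_sdiff]
      refine ⟨?_, he1⟩
      unfold Fe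
      rw [mem_filter, List.mem_toFinset]
      exact ⟨mem_univ _, hn⟩
    · refine le_trans ?_ h11
      apply card_le_card_of_injOn (fun e : G.edgeSet => (e : Sym2 V))
      · intro e he
        rw [mem_coe, Finset.mem_sdiff] at he
        rw [mem_coe, Finset.mem_sdiff]
        unfold Fe at he
        rw [mem_filter, mem_filter] at he
        exact ⟨he.1.2, fun h => he.2 ⟨mem_univ _, h⟩⟩
      · intro a _ b _ hab
        exact Subtype.ext hab
    · have : Fe G F ∪ (Fe G c.edges.toFinset \ Fe G F) = Fe G (F ∪ c.edges.toFinset) := by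
        ext e
        unfold Fe
        simp only [mem_union, Finset.mem_sdiff, mem_filter, mem_univ, true_and]
        tauto
      rw [this]
      exact h

/-! ## cuts -/

/-- the ordered pairs of adjacent vertices from `X` to its complement -/
def pairs (G : SimpleGraph V) [DecidableRel G.Adj] (X : Finset V) : Finset (V × V) :=
  univ.filter (fun p => G.Adj p.1 p.2 ∧ p.1 ∈ X ∧ p.2 ∉ X)

/-- the number of neighbours of `v` outside `X` -/
def tt (G : SimpleGraph V) [DecidableRel G.Adj] (X : Finset V) (v : V) : ℕ :=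
  (univ.filter (fun u => G.Adj v u ∧ u ∉ X)).card

theorem crs_card (src dst : G.edgeSet → V) (hor : ∀ e, s(src e, dst e) = (e : Sym2 V))
    (X : Finset V) : (crs src dst X).card = (pairs G X).card := by
  have hadj : ∀ e : G.edgeSet, G.Adj (src e) (dst e) := by
    intro e
    rw [← SimpleGraph.mem_edgeSet, hor e]
    exact e.2
  refine card_bij (fun e _ => if src e ∈ X then (src e, dst e) else (dst e, src e)) ?_ ?_ ?_
  · intro e he
    unfold crs at he
    rw [mem_filter] at he
    unfold pairs
    rw [mem_filter]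
    refine ⟨mem_univ _, ?_⟩
    by_cases h : src e ∈ X
    · rw [if_pos h]
      have h2 : dst e ∉ X := fun h2 => he.2 (by tauto)
      exact ⟨hadj e, h, h2⟩
    · rw [if_neg h]
      have h2 : dst e ∈ X := by
        by_contra h2
        exact he.2 (by tauto)
      exact ⟨(hadj e).symm, h2, h⟩
  · intro e _ e' _ h
    apply Subtype.ext
    rw [← hor e, ← hor e']
    by_cases h1 : src e ∈ X <;> by_cases h2 : src e' ∈ X <;>
      simp only [h1, h2, if_true, if_false, Prod.mk.injEq] at h <;>
      rw [Sym2.eq_iff] <;> tauto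
  · intro p hp
    unfold pairs at hp
    rw [mem_filter] at hp
    obtain ⟨-, h1, h2, h3⟩ := hp
    have hor' := hor ⟨s(p.1, p.2), h1⟩
    simp only [Sym2.eq_iff] at hor'
    refine ⟨⟨s(p.1, p.2), h1⟩, ?_, ?_⟩
    · unfold crs
      rw [mem_filter]
      refine ⟨mem_univ _, ?_⟩
      rcases hor' with ⟨h4, h5⟩ | ⟨h4, h5⟩
      · rw [h4, h5]; tauto
      · rw [h4, h5]; tauto
    · rcases hor' with ⟨h4, h5⟩ | ⟨h4, h5⟩
      · rw [h4, h5, if_pos h2]
      · rw [h4, h5, if_neg h3]

theorem pairs_image (φ : G ≃g G) (X : Finset V) :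
    (pairs G (X.image φ)).card = (pairs G X).card := by
  symm
  refine card_bij (fun p _ => (φ p.1, φ p.2)) ?_ ?_ ?_
  · intro p hp
    unfold pairs at hp ⊢
    rw [mem_filter] at hp ⊢
    refine ⟨mem_univ _, φ.map_adj_iff.2 hp.2.1, mem_image_of_mem _ hp.2.2.1, fun h => ?_⟩
    obtain ⟨x, hx, hx2⟩ := mem_image.1 h
    exact hp.2.2.2 (by rwa [φ.injective hx2] at hx)
  · intro p _ q _ h
    simp only [Prod.mk.injEq] at h
    exact Prod.ext (φ.injective h.1) (φ.injective h.2)
  · intro q hq
    unfold pairs at hq
    rw [mem_filter] at hq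
    obtain ⟨-, h1, h2, h3⟩ := hq
    obtain ⟨x, hx, hx2⟩ := mem_image.1 h2
    refine ⟨(x, φ.symm q.2), ?_, ?_⟩
    · unfold pairs
      rw [mem_filter]
      refine ⟨mem_univ _, ?_, hx, fun h => ?_⟩
      · rw [← φ.map_adj_iff]
        simp only [hx2, RelIso.apply_symm_apply]
        exact h1
      · exact h3 (mem_image.2 ⟨_, h, φ.apply_symm_apply _⟩)
    · simp [hx2]

theorem pairs_sum (X : Finset V) : (pairs G X).card = ∑ v ∈ X, tt G X v := by
  have h1 : pairs G X = X.biUnion (fun v => (univ.filter (fun u => G.Adj v u ∧ u ∉ X)).image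
      (fun u => (v, u))) := by
    ext p
    unfold pairs
    simp only [mem_filter, mem_univ, true_and, mem_biUnion, mem_image]
    constructor
    · rintro ⟨h1, h2, h3⟩
      exact ⟨p.1, h2, p.2, ⟨h1, h3⟩, rfl⟩
    · rintro ⟨v, hv, u, ⟨h1, h2⟩, rfl⟩
      exact ⟨h1, hv, h2⟩
  rw [h1, card_biUnion]
  · refine sum_congr rfl fun v _ => ?_
    rw [card_image_of_injective]
    · rfl
    · intro a b h
      simpa using h
  · intro v _ w _ hvw
    rw [Function.onFun, disjoint_left]
    intro p hp hq
    simp only [mem_image] at hp hq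
    obtain ⟨u, -, rfl⟩ := hp
    obtain ⟨u', -, h⟩ := hq
    simp only [Prod.mk.injEq] at h
    exact hvw h.1.symm

theorem posi {E : Type} [Fintype E] [DecidableEq E] (src dst : E → V) (X Y : Finset V) :
    (crs src dst (X \ Y)).card + (crs src dst (Y \ X)).card ≤
      (crs src dst X).card + (crs src dst Y).card := by
  unfold crs
  simp only [card_filter, ← sum_add_distrib]
  refine sum_le_sum fun e _ => ?_
  simp only [Finset.mem_sdiff]
  by_cases h1 : src e ∈ X <;> by_cases h2 : dst e ∈ X <;> by_cases h3 : src e ∈ Y <;>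
    by_cases h4 : dst e ∈ Y <;> simp [h1, h2, h3, h4]

end Pool.Agent.J4.H30.VT
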