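import Pool.Agent.J4.H30.VT.Cut

/-!
# Chains of cycles in cubic vertex-transitive graphs
-/

set_option autoImplicit false
set_option linter.unusedSectionVars false
set_option linter.unusedDecidableInType false
set_option linter.unusedFintypeInType false

namespace Pool.Agent.J4.H30.VT

open Finset Pool.Agent.TH676.Z Pool.Agent.Y335.FL

variable {V : Type} [Fintype V] [DecidableEq V] {G : SimpleGraph V} [DecidableRel G.Adj]

/-- no edge of `F` leaves `X` -/
def Cl (F : Finset (Sym2 V)) (X : Finset V) : Prop := ∀ u v, s(u, v) ∈ F → (u ∈ X ↔ v ∈ X)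

theorem Cl.sdiff {F : Finset (Sym2 V)} {X Y : Finset V} (h1 : Cl F X) (h2 : Cl F Y) :
    Cl F (X \ Y) := by
  intro u v h
  rw [Finset.mem_sdiff, Finset.mem_sdiff, h1 u v h, h2 u v h]

theorem Cl.image {F : Finset (Sym2 V)} {X : Finset V} (φ : G ≃g G)
    (hφ : ∀ u v, s(u, v) ∈ F ↔ s(φ u, φ v) ∈ F) (h1 : Cl F X) : Cl F (X.image φ) := by
  intro u v h
  have h2 := (hφ (φ.symm u) (φ.symm v)).2 (by simpa using h)
  have h3 := h1 _ _ h2
  have h4 : ∀ w, w ∈ X.image φ ↔ φ.symm w ∈ X := by
    intro w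
    rw [mem_image]
    constructor
    · rintro ⟨x, hx, rfl⟩
      simpa using hx
    · intro h
      exact ⟨_, h, by simp⟩
  rw [h4, h4, h3]

/-- the number of neighbours along `F` -/
def dF (F : Finset (Sym2 V)) (v : V) : ℕ := (univ.filter (fun u => s(v, u) ∈ F)).card

theorem inv_of_max {F : Finset (Sym2 V)} (hF : Ch G F) (hmax : ∀ F', Ch G F' → F' ⊆ F)
    (φ : G ≃g G) (u v : V) : s(u, v) ∈ F ↔ s(φ u, φ v) ∈ F := by
  have h1 : ∀ (ψ : G ≃g G) (a b : V), s(a, b) ∈ F → s(ψ a, ψ b) ∈ F := by
    intro ψ a b h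
    apply hmax _ (hF.image ψ)
    rw [mem_image]
    exact ⟨_, h, rfl⟩
  refine ⟨h1 φ u v, fun h => ?_⟩
  have := h1 φ.symm _ _ h
  simpa using this

theorem dF_le {F : Finset (Sym2 V)} (hF : Ch G F) (hmax : ∀ F', Ch G F' → F' ⊆ F)
    (htr : ∀ u v, ∃ φ : G ≃g G, φ u = v) (u v : V) : dF F u ≤ dF F v := by
  obtain ⟨φ, rfl⟩ := htr u v
  unfold dF
  refine card_le_card_of_injOn φ ?_ (fun a _ b _ h => φ.injective h)
  intro w hw
  rw [mem_coe, mem_filter] at hw ⊢
  exact ⟨mem_univ _, (inv_of_max hF hmax φ u w).1 hw.2⟩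

theorem dF_le_three {F : Finset (Sym2 V)} (hF : Ch G F) (hreg : ∀ v, G.degree v = 3) (v : V) :
    dF F v ≤ 3 := by
  rw [← hreg v, ← SimpleGraph.card_neighborFinset_eq_degree]
  unfold dF
  refine card_le_card fun u hu => ?_
  rw [SimpleGraph.mem_neighborFinset]
  exact hF.sub _ (mem_filter.1 hu).2

theorem tt_add {F : Finset (Sym2 V)} (hF : Ch G F) (hreg : ∀ v, G.degree v = 3) {X : Finset V}
    (hX : Cl F X) {v : V} (hv : v ∈ X) : tt G X v + dF F v ≤ 3 := by
  rw [← hreg v, ← SimpleGraph.card_neighborFinset_eq_degree]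
  unfold tt dF
  rw [← card_union_of_disjoint]
  · refine card_le_card fun u hu => ?_
    rw [SimpleGraph.mem_neighborFinset]
    rw [mem_union, mem_filter, mem_filter] at hu
    rcases hu with hu | hu
    · exact hu.2.1
    · exact hF.sub _ hu.2
  · rw [disjoint_left]
    intro u hu hu2
    rw [mem_filter] at hu hu2
    exact hu.2.2 ((hX v u hu2.2).1 hv)

/-- the triangle as a closed walk -/
theorem triangle_cycle {a b c : V} (hab : G.Adj a b) (hbc : G.Adj b c) (hca : G.Adj c a) :
    ∃ p : G.Walk a a, p.IsCycle ∧ p.edges = [s(a, b), s(b, c), s(c, a)] := by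
  refine ⟨SimpleGraph.Walk.cons hab (SimpleGraph.Walk.cons hbc (SimpleGraph.Walk.cons hca
    SimpleGraph.Walk.nil)), ?_, by simp⟩
  have h1 := G.ne_of_adj hab
  have h2 := G.ne_of_adj hbc
  have h3 := G.ne_of_adj hca
  rw [SimpleGraph.Walk.cons_isCycle_iff]
  refine ⟨?_, ?_⟩
  · rw [SimpleGraph.Walk.cons_isPath_iff, SimpleGraph.Walk.cons_isPath_iff]
    refine ⟨⟨SimpleGraph.Walk.IsPath.nil, ?_⟩, ?_⟩
    · simp [h3]
    · simp [h2, h1.symm]
  · simp [h1, h2, h3, h1.symm, h2.symm, h3.symm]

theorem exists_boundary (hconn : G.Connected) {X : Finset V} (h1 : X.Nonempty)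
    (h2 : X ≠ univ) : (pairs G X).Nonempty := by
  obtain ⟨u, hu⟩ := h1
  obtain ⟨v, hv⟩ : ∃ v, v ∉ X := by
    by_contra h
    push Not at h
    exact h2 (eq_univ_iff_forall.2 h)
  obtain ⟨p⟩ := hconn.preconnected u v
  obtain ⟨d, -, hd1, hd2⟩ := p.exists_boundary_dart (X : Set V) hu hv
  refine ⟨(d.fst, d.snd), ?_⟩
  unfold pairs
  rw [mem_filter]
  exact ⟨mem_univ _, d.adj, hd1, hd2⟩

/-- a walk along edges of `F` stays in a closed set -/
theorem walk_stays {F : Finset (Sym2 V)} {X : Finset V} (hX : Cl F X) {a b : V} (p : G.Walk a b)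
    (hp : ∀ e ∈ p.edges, e ∈ F) (ha : a ∈ X) : ∀ v ∈ p.support, v ∈ X := by
  induction p with
  | nil =>
    intro v hv
    rw [SimpleGraph.Walk.support_nil, List.mem_singleton] at hv
    rw [hv]
    exact ha
  | @cons a c b h p ih =>
    intro v hv
    rw [SimpleGraph.Walk.support_cons, List.mem_cons] at hv
    rcases hv with rfl | hv
    · exact ha
    · refine ih (fun e he => hp e ?_) ?_ v hv
      · rw [SimpleGraph.Walk.edges_cons]
        exact List.mem_cons_of_mem _ he
      · exact (hX a c (hp _ (by rw [SimpleGraph.Walk.edges_cons]; exact List.mem_cons_self))).1 ha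

/-- the number of the edges which leave a closed set is at least four -/
theorem four_le (src dst : G.edgeSet → V) (hor : ∀ e, s(src e, dst e) = (e : Sym2 V))
    (hconn : G.Connected) (hreg : ∀ v, G.degree v = 3) (htr : ∀ u v, ∃ φ : G ≃g G, φ u = v)
    {F : Finset (Sym2 V)} (hF : Ch G F) (hmax : ∀ F', Ch G F' → F' ⊆ F)
    (h2 : ∀ v, dF F v = 2) {v₀ : V} (C : G.Walk v₀ v₀) (hC : C.IsCycle) (hlen : 4 ≤ C.length)
    (hCF : ∀ e ∈ C.edges, e ∈ F) (X : Finset V) (hX : Cl F X) (hX1 : X.Nonempty)
    (hX2 : X ≠ univ) : 4 ≤ (crs src dst X).card := by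
  by_contra hlt
  push Not at hlt
  have hinv := inv_of_max hF hmax
  obtain ⟨n, hn⟩ : ∃ n, n = Fintype.card V := ⟨_, rfl⟩
  obtain ⟨Z, hZ⟩ : ∃ Z : Finset (Finset V), ∀ Y, Y ∈ Z ↔ Cl F Y ∧ Y.Nonempty ∧ Y ≠ univ := by
    classical
    exact ⟨univ.filter (fun Y => Cl F Y ∧ Y.Nonempty ∧ Y ≠ univ), fun Y => by simp⟩
  obtain ⟨Y, hY, hmin⟩ := Z.exists_min_image
    (fun Y => (crs src dst Y).card * (n + 1) + Y.card) ⟨X, (hZ X).2 ⟨hX, hX1, hX2⟩⟩
  obtain ⟨hY1, hY2, hY3⟩ := (hZ Y).1 hY
  have hcard : ∀ W : Finset V, W.card ≤ n := fun W => by rw [hn]; exact card_le_univ W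
  -- `Y` has the least number of boundary edges
  have hlam : ∀ W, Cl F W → W.Nonempty → W ≠ univ →
      (crs src dst Y).card ≤ (crs src dst W).card := by
    intro W w1 w2 w3
    by_contra h
    push Not at h
    have h3 := hmin W ((hZ W).2 ⟨w1, w2, w3⟩)
    have h4 := hcard W
    have h5 : ((crs src dst W).card + 1) * (n + 1) ≤ (crs src dst Y).card * (n + 1) :=
      Nat.mul_le_mul_right _ h
    nlinarith
  have hlt' : (crs src dst Y).card ≤ 3 := (hlam X hX hX1 hX2).trans (by omega)
  -- the images of `Y` are disjoint or equal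
  have hblock : ∀ φ : G ≃g G, (∃ w ∈ Y, w ∈ Y.image φ) → Y.image φ = Y := by
    intro φ hw
    by_contra hne
    have hc : (Y.image φ).card = Y.card := card_image_of_injective _ φ.injective
    have hcl : Cl F (Y.image φ) := hY1.image φ (hinv φ)
    have hcr : (crs src dst (Y.image φ)).card = (crs src dst Y).card := by
      rw [crs_card src dst hor, crs_card src dst hor, pairs_image]
    have hp := posi src dst Y (Y.image φ)
    have a1 : (Y \ Y.image φ).Nonempty := by
      rw [sdiff_nonempty]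
      intro h
      exact hne (eq_of_subset_of_card_le h (by rw [hc])).symm
    have a2 : (Y.image φ \ Y).Nonempty := by
      rw [sdiff_nonempty]
      intro h
      exact hne (eq_of_subset_of_card_le h (by rw [hc]))
    have a3 : Y \ Y.image φ ≠ univ := fun h =>
      hY3 (univ_subset_iff.1 (h ▸ sdiff_subset))
    have a4 : Y.image φ \ Y ≠ univ := by
      intro h
      obtain ⟨y, hy⟩ := hY2
      have : y ∈ Y.image φ \ Y := by rw [h]; exact mem_univ _
      exact (Finset.mem_sdiff.1 this).2 hy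
    have b1 := hlam _ (hY1.sdiff hcl) a1 a3
    have b2 := hlam _ (hcl.sdiff hY1) a2 a4
    have b3 : (crs src dst (Y \ Y.image φ)).card = (crs src dst Y).card := by omega
    have b4 := hmin _ ((hZ _).2 ⟨hY1.sdiff hcl, a1, a3⟩)
    rw [b3] at b4
    obtain ⟨w, hw1, hw2⟩ := hw
    have b5 : (Y \ Y.image φ).card < Y.card := by
      apply card_lt_card
      rw [ssubset_iff_subset_ne]
      refine ⟨sdiff_subset, fun h => ?_⟩
      rw [← h] at hw1
      exact (Finset.mem_sdiff.1 hw1).2 hw2
    omega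
  have htt : ∀ v ∈ Y, ∀ w ∈ Y, tt G Y v ≤ tt G Y w := by
    intro v hv w hw
    obtain ⟨φ, hφ⟩ := htr v w
    have h3 := hblock φ ⟨w, hw, mem_image.2 ⟨v, hv, hφ⟩⟩
    unfold tt
    refine card_le_card_of_injOn φ ?_ (fun a _ b _ h => φ.injective h)
    intro u hu
    rw [mem_coe, mem_filter] at hu ⊢
    refine ⟨mem_univ _, ?_, fun h => hu.2.2 ?_⟩
    · rw [← hφ]
      exact φ.map_adj_iff.2 hu.2.1
    · rw [← h3] at h
      obtain ⟨x, hx, hx2⟩ := mem_image.1 h
      rwa [φ.injective hx2] at hx
  have ht1 : ∀ v ∈ Y, tt G Y v ≤ 1 := by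
    intro v hv
    have := tt_add hF hreg hY1 hv
    rw [h2] at this
    omega
  have hpos : 0 < (crs src dst Y).card := by
    rw [crs_card src dst hor, card_pos]
    exact exists_boundary hconn hY2 hY3
  have hsum : (crs src dst Y).card = ∑ v ∈ Y, tt G Y v := by
    rw [crs_card src dst hor, pairs_sum]
  have hone : ∀ v ∈ Y, tt G Y v = 1 := by
    by_contra h
    push Not at h
    obtain ⟨v, hv, hne⟩ := h
    have h3 : tt G Y v = 0 := by
      have := ht1 v hv
      omega
    rw [hsum, sum_eq_zero] at hpos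
    · exact lt_irrefl _ hpos
    · intro w hw
      have := htt w hw v hv
      omega
  have hY3' : Y.card ≤ 3 := by
    rw [hsum, sum_congr rfl hone] at hlt'
    simpa using hlt'
  -- the cycle is in an image of `Y`
  obtain ⟨y, hy⟩ := hY2
  obtain ⟨φ, hφ⟩ := htr y v₀
  have hcl : Cl F (Y.image φ) := hY1.image φ (hinv φ)
  have hst := walk_stays hcl C hCF (mem_image.2 ⟨y, hy, hφ⟩)
  have hnd := hC.support_nodup
  have h5 : C.support.tail.toFinset ⊆ Y.image φ := by
    intro v hv
    rw [List.mem_toFinset] at hv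
    exact hst v (List.mem_of_mem_tail hv)
  have h6 := card_le_card h5
  rw [List.toFinset_card_of_nodup hnd, List.length_tail, SimpleGraph.Walk.length_support,
    card_image_of_injective _ φ.injective] at h6
  omega

/-- the multigraph is bridgeless -/
theorem bridgeless (src dst : G.edgeSet → V) (hor : ∀ e, s(src e, dst e) = (e : Sym2 V))
    {F : Finset (Sym2 V)} (hF : Ch G F)
    (h4 : ∀ X : Finset V, Cl F X → X.Nonempty → X ≠ univ → 4 ≤ (crs src dst X).card) :
    Br src dst ∅ ∅ := by
  intro Y _ h1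
  rw [sdiff_empty, card_eq_one] at h1
  obtain ⟨e, he⟩ := h1
  have hemem : e ∈ crs src dst Y := by rw [he]; exact mem_singleton_self e
  by_cases heF : (e : Sym2 V) ∈ F
  · obtain ⟨w, c, hc, hec⟩ := hF.cycle _ heF
    obtain ⟨z, hz1, hz2⟩ := walk_flow src dst hor c hc
    have hz3 : ∑ v ∈ Y, bd src dst z v = 0 := sum_eq_zero fun v _ => hz1 v
    unfold bd at hz3
    rw [sum_comm] at hz3
    have h2 : ∀ e', ∑ v ∈ Y, ((if src e' = v then z e' else 0) - (if dst e' = v then z e' else 0)) =
        (if src e' ∈ Y then z e' else 0) - (if dst e' ∈ Y then z e' else 0) := by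
      intro e'
      rw [sum_sub_distrib, Finset.sum_ite_eq, Finset.sum_ite_eq]
    rw [sum_congr rfl fun e' _ => h2 e', sum_eq_single e] at hz3
    · unfold crs at hemem
      rw [mem_filter] at hemem
      have hze : z e ≠ 0 := (hz2 e).2 hec
      by_cases h3 : src e ∈ Y <;> by_cases h5 : dst e ∈ Y
      · exact hemem.2 (by tauto)
      · simp only [h3, h5, if_true, if_false, sub_zero] at hz3
        exact hze hz3
      · simp only [h3, h5, if_true, if_false, zero_sub, neg_eq_zero] at hz3
        exact hze hz3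
      · exact hemem.2 (by tauto)
    · intro e' _ hne
      have h3 : e' ∉ crs src dst Y := by
        rw [he, mem_singleton]
        exact hne
      unfold crs at h3
      rw [mem_filter, not_and, not_not] at h3
      have h5 := h3 (mem_univ _)
      by_cases h6 : src e' ∈ Y
      · rw [if_pos h6, if_pos (h5.1 h6), sub_self]
      · rw [if_neg h6, if_neg (fun h => h6 (h5.2 h)), sub_self]
    · intro h
      exact absurd (mem_univ _) h
  · have hcl : Cl F Y := by
      intro u v huv
      by_contra hne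
      have hadj := hF.sub _ huv
      have h5 : (⟨s(u, v), hadj⟩ : G.edgeSet) ∈ crs src dst Y := by
        unfold crs
        rw [mem_filter]
        refine ⟨mem_univ _, fun h => hne ?_⟩
        have hor' := hor ⟨s(u, v), hadj⟩
        simp only [Sym2.eq_iff] at hor'
        rcases hor' with ⟨h6, h7⟩ | ⟨h6, h7⟩
        · rwa [h6, h7] at h
        · rw [h6, h7] at h
          exact h.symm
      rw [he, mem_singleton] at h5
      apply heF
      rw [← h5]
      exact huv
    have hne1 : Y.Nonempty := by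
      rw [nonempty_iff_ne_empty]
      rintro rfl
      simp [crs] at hemem
    have hne2 : Y ≠ univ := by
      rintro rfl
      simp [crs] at hemem
    have := h4 Y hcl hne1 hne2
    rw [he, card_singleton] at this
    omega

theorem crowd (src dst : G.edgeSet → V) (hor : ∀ e, s(src e, dst e) = (e : Sym2 V))
    {F : Finset (Sym2 V)} (hF : Ch G F)
    (h4 : ∀ X : Finset V, Cl F X → X.Nonempty → X ≠ univ → 4 ≤ (crs src dst X).card) :
    Pool.Agent.J4.H42.Fl.Crowd src dst (Fe G F) := by
  intro k p hp hpF _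
  left
  by_cases hk : k ≤ 1
  · omega
  push Not at hk
  have hcl : ∀ i, Cl F (univ.filter (fun v => p v = i)) := by
    intro i u v huv
    have hadj := hF.sub _ huv
    have h1 := hpF ⟨s(u, v), hadj⟩ (by unfold Fe; rw [mem_filter]; exact ⟨mem_univ _, huv⟩)
    have hor' := hor ⟨s(u, v), hadj⟩
    simp only [Sym2.eq_iff] at hor'
    rw [mem_filter, mem_filter]
    rcases hor' with ⟨h6, h7⟩ | ⟨h6, h7⟩
    · rw [h6, h7] at h1
      rw [h1]
      simp
    · rw [h6, h7] at h1
      rw [h1]
      simp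
  have h5 : ∀ i, 4 ≤ (crs src dst (univ.filter (fun v => p v = i))).card := by
    intro i
    refine h4 _ (hcl i) ?_ ?_
    · obtain ⟨v, hv⟩ := hp i
      exact ⟨v, mem_filter.2 ⟨mem_univ _, hv⟩⟩
    · intro h
      obtain ⟨j, hj⟩ : ∃ j : Fin k, j ≠ i := by
        by_contra hn
        push Not at hn
        have e0 := hn ⟨0, by omega⟩
        have e1 := hn ⟨1, by omega⟩
        rw [← e1] at e0
        simp at e0
      obtain ⟨v, hv⟩ := hp j
      have h6 : v ∈ univ.filter (fun v => p v = i) := by rw [h]; exact mem_univ _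
      rw [mem_filter] at h6
      exact hj (hv.symm.trans h6.2)
  have h6 : 4 * k ≤ ∑ i, (crs src dst (univ.filter (fun v => p v = i))).card := by
    calc 4 * k = ∑ _i : Fin k, 4 := by simp [mul_comm]
      _ ≤ _ := sum_le_sum fun i _ => h5 i
  have h7 : ∑ i, (crs src dst (univ.filter (fun v => p v = i))).card ≤
      2 * (univ.filter (fun e => p (src e) ≠ p (dst e))).card := by
    unfold crs
    simp only [card_filter]
    rw [sum_comm, mul_sum]
    refine sum_le_sum fun e _ => ?_
    by_cases he : p (src e) = p (dst e)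
    · simp [he]
    · rw [if_pos he]
      simp only [mem_filter, mem_univ, true_and]
      calc ∑ i : Fin k, (if ¬ (p (src e) = i ↔ p (dst e) = i) then 1 else 0) ≤
          ∑ i : Fin k, ((if p (src e) = i then 1 else 0) + (if p (dst e) = i then 1 else 0)) := by
            refine sum_le_sum fun i _ => ?_
            by_cases a : p (src e) = i <;> by_cases b : p (dst e) = i <;> simp [a, b]
        _ = 2 * 1 := by
            rw [sum_add_distrib, Finset.sum_ite_eq, Finset.sum_ite_eq]
            simp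
  omega

theorem dF_two {F : Finset (Sym2 V)} {v₀ : V} (C : G.Walk v₀ v₀) (hC : C.IsCycle)
    (hCF : ∀ e ∈ C.edges, e ∈ F) : 2 ≤ dF F v₀ := by
  have hnil : ¬ C.Nil := hC.not_nil
  have h1 : s(v₀, C.snd) ∈ C.edges := SimpleGraph.Walk.mk_start_snd_mem_edges hnil
  have h2 : s(C.penultimate, v₀) ∈ C.edges := SimpleGraph.Walk.mk_penultimate_end_mem_edges hnil
  have h3 : C.snd ≠ C.penultimate := hC.snd_ne_penultimate
  unfold dF
  have h4 : ({C.snd, C.penultimate} : Finset V) ⊆ univ.filter (fun u => s(v₀, u) ∈ F) := by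
    intro u hu
    rw [mem_insert, mem_singleton] at hu
    rw [mem_filter]
    refine ⟨mem_univ _, ?_⟩
    rcases hu with rfl | rfl
    · exact hCF _ h1
    · rw [Sym2.eq_swap]
      exact hCF _ h2
  calc 2 = ({C.snd, C.penultimate} : Finset V).card := (card_pair h3).symm
    _ ≤ _ := card_le_card h4

/-- **Nowhere-zero flows modulo five.** -/
theorem flow5 (src dst : G.edgeSet → V) (hor : ∀ e, s(src e, dst e) = (e : Sym2 V))
    (hconn : G.Connected) (hreg : ∀ v, G.degree v = 3) (htr : ∀ u v, ∃ φ : G ≃g G, φ u = v)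
    {v₀ : V} (C : G.Walk v₀ v₀) (hC : C.IsCycle) (hlen : 4 ≤ C.length)
    (h11 : (C.edges.toFinset.filter (fun e => ¬ ∃ a b c, G.Adj a b ∧ G.Adj b c ∧ G.Adj c a ∧
      e = s(a, b))).card ≤ 11) : FlowOn src dst ∅ ∅ := by
  obtain ⟨F, hF, hmax⟩ := exists_max G
  have htri : ∀ a b c, G.Adj a b → G.Adj b c → G.Adj c a → s(a, b) ∈ F := by
    intro a b c hab hbc hca
    obtain ⟨p, hp, he⟩ := triangle_cycle hab hbc hca
    have h1 := Ch.step ∅ a p Ch.nil hp (by
      rw [sdiff_empty, he]
      refine (List.toFinset_card_le _).trans ?_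
      simp)
    apply hmax _ h1
    rw [mem_union, List.mem_toFinset, he]
    simp
  have hCF : ∀ e ∈ C.edges, e ∈ F := by
    have h1 := Ch.step F v₀ C hF hC (le_trans (card_le_card (fun e he => ?_)) h11)
    · intro e he
      apply hmax _ h1
      rw [mem_union, List.mem_toFinset]
      exact Or.inr he
    · rw [Finset.mem_sdiff] at he
      rw [mem_filter]
      refine ⟨he.1, ?_⟩
      rintro ⟨a, b, c, hab, hbc, hca, rfl⟩
      exact he.2 (htri a b c hab hbc hca)
  have hle := dF_le hF hmax htr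
  have h2 := dF_two C hC hCF
  have h3 := dF_le_three hF hreg v₀
  apply lift src dst hor hF
  rcases Nat.lt_or_ge (dF F v₀) 3 with hlt | hge
  · have hdeg : ∀ v, dF F v = 2 := by
      intro v
      have := hle v v₀
      have := hle v₀ v
      omega
    have h4 := four_le src dst hor hconn hreg htr hF hmax hdeg C hC hlen hCF
    exact Pool.Agent.J4.H42.Fl.flow_crowd Pool.Agent.Y335.FL.quot'
      Pool.Agent.Y335.FL.contract_all Pool.Agent.Y335.FL.ahl src dst _ (bridgeless src dst hor hF h4)
      (crowd src dst hor hF h4)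
  · have hall : ∀ e : G.edgeSet, (e : Sym2 V) ∈ F := by
      rintro ⟨e, he⟩
      induction e with
      | _ u v =>
        have h5 : univ.filter (fun w => s(u, w) ∈ F) = G.neighborFinset u := by
          apply eq_of_subset_of_card_le
          · intro w hw
            rw [SimpleGraph.mem_neighborFinset]
            exact hF.sub _ (mem_filter.1 hw).2
          · rw [SimpleGraph.card_neighborFinset_eq_degree, hreg u]
            exact hge.trans (hle v₀ u)
        have h6 : v ∈ univ.filter (fun w => s(u, w) ∈ F) := by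
          rw [h5, SimpleGraph.mem_neighborFinset]
          exact he
        exact (mem_filter.1 h6).2
    refine ⟨fun _ => 0, fun v => ?_, fun e _ => rfl, fun e _ he => ?_⟩
    · unfold bd
      simp
    · exfalso
      apply he
      unfold Fe
      rw [mem_filter]
      exact ⟨mem_univ _, hall e⟩

end Pool.Agent.J4.H30.VT
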